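import Pool.Agent.N459.HN.Pen
import Pool.Agent.N162.HN.Stm2
import Pool.Agent.N543.HN.Hom

/-!
# Project HO (helper162), part PENR: a single curve whose intersection with the hypersurface is a part
of the generic fibre, from the residue relations (port of `N459/HN/Pen.lean` of helper459)
-/

set_option autoImplicit false
set_option linter.unusedSectionVars false

open FF Pool.Agent.W603.LV Pool.Agent.Y184.NT Pool.Agent.N162.BC IntermediateField MvPolynomial
open Pool.Agent.N162.CV (PRel MonicY)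
open Pool.Agent.N162.HN Pool.Agent.N459.HN

namespace Pool.Agent.N490.HO

theorem penr_ (hCONFR : StCONFR) (hHOM : Pool.Agent.N543.HN.StHOM') (hCONJ : StCONJ)
    (hINF : StINF) (hISO : StISO) : StPENR := by
  classical
  intro n L K Ω _ _ _ _ _ _ _ _ _ _ _ _ _ F d m N hn hF hFh hmd hmN hNd hNd2 hFe x hx0 hxF hgen
    htrK hrel hfr hnull A hA
  have hcL : CharZero L := charZero_of_injective_algebraMap (algebraMap ℂ L).injective
  have hcΩ : CharZero Ω := charZero_of_injective_algebraMap (algebraMap ℂ Ω).injective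
  -- the cycle
  let S : Finset (K →ₐ[ℂ] Ω) := (fix_finite (L := L) (K := K) (Ω := Ω)).toFinset
  have hS : ∀ σ, σ ∈ S ↔ Fix L σ := fun σ => by
    simp only [S, Set.Finite.mem_toFinset, Set.mem_ofPred_eq]
  let f : (K →ₐ[ℂ] Ω) →₀ ℤ := Finsupp.onFinset S (fun σ => if Fix L σ then 1 else 0) (by
    intro σ hσ
    rw [hS]
    by_contra hcon
    exact hσ (if_neg hcon))
  have hf : ∀ σ, f σ = if Fix L σ then 1 else 0 := fun σ => rfl
  have hf1 : ∀ σ, Fix L σ → f σ = 1 := fun σ h => by rw [hf, if_pos h]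
  have hf0 : ∀ σ, f σ ≠ 0 → Fix L σ := by
    intro σ h
    by_contra hcon
    exact h (by rw [hf, if_neg hcon])
  have hfnull : RelF F x m (f.mapRange (Int.cast : ℤ → Ω) Int.cast_zero) := by
    refine hnull _ fun σ => ?_
    by_cases h : Fix L σ
    · refine Or.inl ⟨?_, h⟩
      rw [Finsupp.mapRange_apply, hf1 σ h, Int.cast_one]
    · refine Or.inr ⟨?_, h⟩
      rw [Finsupp.mapRange_apply, hf, if_neg h, Int.cast_zero]
  have hfcard : f.support.card < (N + 1) * (m + 2 - N) := by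
    refine lt_of_le_of_lt ?_ hfr
    refine le_trans ?_ (fix_card (L := L) (K := K) (Ω := Ω))
    rw [← Set.ncard_coe_finset]
    refine Set.ncard_le_ncard ?_ fix_finite
    intro σ hσ
    exact hf0 σ (Finsupp.mem_support_iff.1 hσ)
  -- an embedding
  obtain ⟨σ0, hσ0⟩ : ∃ σ : K →ₐ[ℂ] Ω, Fix L σ := by
    let σL : K →ₐ[L] Ω := IsAlgClosed.lift
    exact ⟨σL.restrictScalars ℂ, fun a => σL.commutes a⟩
  -- transcendence degree
  have htrL : Algebra.trdeg ℂ K = Algebra.trdeg ℂ L := trdeg_alg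
  have htrΩ : Algebra.trdeg ℂ Ω = n := by
    rw [← htrK, htrL]
    exact trdeg_alg
  -- the equations
  have hinj : Function.Injective (algebraMap L Ω) := (algebraMap L Ω).injective
  let A' : Fin n → MvPolynomial (Fin 2) Ω := fun l => map (algebraMap L Ω) (A l)
  have hdeg : ∀ l, (A' l).totalDegree = (A l).totalDegree := by
    intro l
    simp only [A', totalDegree, support_map_of_injective _ hinj]
  have hA' : ∀ l, MonicY (A' l) ∧ 1 ≤ (A' l).totalDegree ∧ (A' l).totalDegree ≤ N := by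
    intro l
    obtain ⟨h1, h2, h3, -⟩ := hA l
    refine ⟨?_, by rw [hdeg]; exact h2, by rw [hdeg]; exact h3⟩
    unfold MonicY
    rw [hdeg]
    simp only [A', coeff_map]
    rw [Ne, map_eq_zero]
    exact h1
  have hAσ : ∀ σ : K →ₐ[ℂ] Ω, Fix L σ → ∀ l : Fin n, eval ![pt x σ 1, pt x σ l.succ.succ] (A' l) = 0 := by
    intro σ hσ l
    have h1 := congrArg (toL σ hσ) (hA l).2.2.2
    rw [map_zero] at h1
    simp only [A']
    rw [eval_map, ← aeval_def]
    have h2 : toL σ hσ (aeval ![x 1, x l.succ.succ] (A l)) =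
        aeval (fun i => toL σ hσ ((![x 1, x l.succ.succ] : Fin 2 → K) i)) (A l) := by
      rw [← comp_aeval_apply]
    rw [h2] at h1
    rw [← h1]
    congr 2
    funext i
    fin_cases i <;> rfl
  obtain ⟨κ, r, C, cyc, c, hCi, hcov, hdis, hcf, hcp, hconf, hcyp, htri⟩ :=
    hCONFR n K Ω F d m N hn hF hFh hmd hmN hNd hFe x hx0 hxF hgen htrK htrΩ hrel f hfnull hfcard A' hA'
      (fun σ hσ => hAσ σ (hf0 σ hσ))
  -- the values of c
  have hc1 : ∀ p, c p ≠ 0 → ∃ σ : K →ₐ[ℂ] Ω, Fix L σ ∧ p = pt x σ := by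
    intro p hp
    obtain ⟨σ, rfl⟩ := hcp p hp
    rw [hcf] at hp
    exact ⟨σ, hf0 σ hp, rfl⟩
  have hc2 : ∀ σ : K →ₐ[ℂ] Ω, Fix L σ → c (pt x σ) = 1 := fun σ hσ => by rw [hcf, hf1 σ hσ]
  have hc2' : ∀ σ : K →ₐ[ℂ] Ω, Fix L σ → c (pt x σ) ≠ 0 := fun σ hσ => by
    rw [hc2 σ hσ]; exact one_ne_zero
  have hc0 : c ≠ 0 := by
    intro h
    exact hc2' σ0 hσ0 (by rw [h]; rfl)
  have hc3 : ∀ p, c p ≠ 0 → c p = 1 := by
    intro p hp
    obtain ⟨σ, hσ, rfl⟩ := hc1 p hp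
    exact hc2 σ hσ
  -- the Galois action
  have hmapA : ∀ (τ : Ω ≃ₐ[L] Ω) (l : Fin n), map ((τ : Ω ≃+* Ω) : Ω →+* Ω) (A' l) = A' l := by
    intro τ l
    simp only [A']
    rw [MvPolynomial.map_map]
    have h1 : ((τ : Ω ≃+* Ω) : Ω →+* Ω).comp (algebraMap L Ω) = algebraMap L Ω :=
      RingHom.ext fun a => τ.commutes a
    rw [h1]
  have hgal := fun (τ : Ω ≃ₐ[L] Ω) => galois hCONJ hINF hISO C A' hCi hcov (τ : Ω ≃+* Ω) (hmapA τ)
  choose π hπd hπo hπP using hgal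
  have hπinj : ∀ τ, Function.Injective (π τ) := by
    intro τ i i' h
    by_contra hne
    obtain ⟨P, hP1, hP2⟩ := hdis i i' hne
    apply hP2
    rw [← hπP τ i' P, ← h]
    exact (hπP τ i P).2 hP1
  have hπsurj : ∀ τ, Function.Surjective (π τ) := fun τ => Finite.surjective_of_injective (hπinj τ)
  have hcτ : ∀ (τ : Ω ≃ₐ[L] Ω) (p : Fin (n + 2) → Ω), c p ≠ 0 → c (fun j => τ (p j)) ≠ 0 := by
    intro τ p hp
    obtain ⟨σ, hσ, rfl⟩ := hc1 p hp
    rw [← pt_cmpl]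
    exact hc2' _ (cmpl_fix τ hσ)
  have hcnt : ∀ (τ : Ω ≃ₐ[L] Ω) (i : Fin r), cnt c (fun i p => (C i).On p) (π τ i) =
      cnt c (fun i p => (C i).On p) i := by
    intro τ i
    unfold cnt
    have himg : {p | c p ≠ 0 ∧ (C (π τ i)).On p} =
        (fun (p : Fin (n + 2) → Ω) (j : Fin (n + 2)) => τ (p j)) '' {p | c p ≠ 0 ∧ (C i).On p} := by
      ext q
      constructor
      · rintro ⟨h1, h2⟩
        have h3 : (fun j => τ ((fun j => τ.symm (q j)) j)) = q := by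
          funext j
          exact τ.apply_symm_apply _
        refine ⟨fun j => τ.symm (q j), ⟨hcτ τ.symm q h1, ?_⟩, h3⟩
        rw [← hπo τ i]
        have h4 := h3.symm ▸ h2
        exact h4
      · rintro ⟨p, ⟨h1, h2⟩, rfl⟩
        exact ⟨hcτ τ p h1, (hπo τ i p).2 h2⟩
    rw [himg]
    refine Set.ncard_image_of_injective _ ?_
    intro p p' h
    funext j
    exact τ.injective (congrFun h j)
  -- homogeneity
  have hhom : ∀ p q, c p ≠ 0 → c q ≠ 0 →
      {i | (C i).deg * N < cnt c (fun i p => (C i).On p) i ∧ (C i).On p}.ncard =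
        {i | (C i).deg * N < cnt c (fun i p => (C i).On p) i ∧ (C i).On q}.ncard := by
    intro p q hp hq
    obtain ⟨σ, hσ, rfl⟩ := hc1 p hp
    obtain ⟨σ', hσ', rfl⟩ := hc1 q hq
    obtain ⟨τ, hτ⟩ := trans (toL σ hσ) (toL σ' hσ')
    have hpq : (fun j => τ (pt x σ j)) = pt x σ' := funext fun j => hτ (x j)
    have himg : {i | (C i).deg * N < cnt c (fun i p => (C i).On p) i ∧ (C i).On (pt x σ')} =
        π τ '' {i | (C i).deg * N < cnt c (fun i p => (C i).On p) i ∧ (C i).On (pt x σ)} := by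
      ext j
      constructor
      · rintro ⟨h1, h2⟩
        obtain ⟨i, rfl⟩ := hπsurj τ j
        rw [hπd, hcnt] at h1
        rw [← hpq] at h2
        exact ⟨i, ⟨h1, (hπo τ i (pt x σ)).1 h2⟩, rfl⟩
      · rintro ⟨i, ⟨h1, h2⟩, rfl⟩
        refine ⟨?_, ?_⟩
        · rw [hπd, hcnt]
          exact h1
        · rw [← hpq]
          exact (hπo τ i (pt x σ)).2 h2
    rw [himg]
    exact (Set.ncard_image_of_injective _ (hπinj τ)).symm
  obtain ⟨J, hJ, hJN, hJu, hJe, hJc⟩ := hHOM n r Ω κ m N d c (fun i => (C i).deg) (fun i p => (C i).On p)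
    cyc A' hconf hNd2 hc0 hc3 hhom
  obtain ⟨i, ⟨hiJ, -⟩, -⟩ := hJu (pt x σ0) (hc2' σ0 hσ0)
  have hdegN : (C i).deg ≤ N :=
    (Finset.single_le_sum (f := fun i => (C i).deg) (fun _ _ => Nat.zero_le _) hiJ).trans hJN
  obtain ⟨p, hp, hpi⟩ := hJe i hiJ
  have hcyi : cyc i p ≠ 0 := hconf.hcy i p hdegN hp hpi
  have h3 : cmp Ω F (C i).X ≠ 0 ∧
      ∀ σ : K →ₐ[ℂ] Ω, cyc i (pt x σ) = mu (C i).X (cmp Ω F (C i).X) (pt x σ) := by
    rcases htri i with h | ⟨-, h⟩ | h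
    · omega
    · exact absurd (by rw [h]; rfl) hcyi
    · exact h
  refine ⟨C i, hdegN, h3.1, ?_, ?_, ?_⟩
  · obtain ⟨σ, hσ, rfl⟩ := hc1 p hp
    exact ⟨σ, hσ, hpi⟩
  · intro σ hσ
    rw [← h3.2 σ] at hσ ⊢
    obtain ⟨h4, h5⟩ := hJc i hiJ _ hσ
    refine ⟨h4, ?_⟩
    rw [hcf] at h5
    exact hf0 σ h5
  · intro σ hσ hon τ honτ P hP
    have h4 : π τ i ∈ J := by
      rw [hJ]
      show (C (π τ i)).deg * N < _
      rw [hπd, hcnt]
      exact (hJ i).1 hiJ
    have h5 : (C (π τ i)).On (fun j => τ (pt x σ j)) := (hπo τ i _).2 hon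
    obtain ⟨j0, -, hj0⟩ := hJu (fun j => τ (pt x σ j)) (hcτ τ _ (hc2' σ hσ))
    have h6 : π τ i = i := (hj0 _ ⟨h4, h5⟩).trans (hj0 _ ⟨hiJ, honτ⟩).symm
    have h7 := (hπP τ i P).2 hP
    rw [h6] at h7
    exact h7

end Pool.Agent.N490.HO
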